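import Pool.Agent.Q162.Pfaff.ASC

/-!
# Pfaffians built from Al-Salam–Carlitz moment sequences

Both evaluations of the conjecture are proved, as identities in the field of rational functions
in two indeterminates `a` and `q` (hence in `ℤ[a, q]`), and more generally in every field of
characteristic zero for all `a` and all `q ≠ 0` that are not roots of unity.

Proof.  With `∂ f = (f(x) - f(q x)) / x` and the moment functional `L`, the entries of the two
matrices are `L(f ∂h - h ∂f)` and `L(x (f ∂h - h ∂f))` for `f = x ^ (i - 1)`, `h = x ^ (j - 1)`.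
In the basis of the Al-Salam–Carlitz polynomials, which `∂` lowers, these skew forms have
tridiagonal, respectively five-diagonal, matrices, and the Pfaffian satisfies a three-term
recurrence solved by the Rogers–Szego polynomials at `q ^ (-2)`.
-/

set_option autoImplicit false

namespace Pool.Agent.Results.MP_f5e7e2_co.AlSalamCarlitz

open Finset Equiv Polynomial

/-- The Pfaffian as the normalised signed sum over all permutations of the `2 n` indices. -/
noncomputable def Pf {K : Type*} [Field K] {n : ℕ} (A : Matrix (Fin (2 * n)) (Fin (2 * n)) K) : K :=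
  1 / ((2 : K) ^ n * (n.factorial : K)) *
    ∑ σ : Perm (Fin (2 * n)), ((Perm.sign σ : ℤ) : K) *
      ∏ k : Fin n, A (σ ⟨2 * k.1, by have := k.2; omega⟩) (σ ⟨2 * k.1 + 1, by have := k.2; omega⟩)

/-- `(q; q)_m` -/
def qpoch {K : Type*} [Field K] (q : K) (m : ℕ) : K := ∏ i ∈ Finset.Icc 1 m, (1 - q ^ i)

/-- The Gaussian binomial coefficient `(q; q)_m / ((q; q)_k (q; q)_{m - k})`, for `k ≤ m`. -/
def gbin {K : Type*} [Field K] (q : K) (m k : ℕ) : K := qpoch q m / (qpoch q k * qpoch q (m - k))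

/-- The moments `g_r`, with `g_r = 0` for negative `r`. -/
def g {K : Type*} [Field K] (a q : K) (r : ℤ) : K :=
  if r < 0 then 0 else ∑ j ∈ Finset.range (r.toNat + 1), gbin q r.toNat j * a ^ j

/-- `x_i = q ^ (i - 1)` for `i ≥ 1` -/
def x {K : Type*} [Field K] (q : K) (i : ℕ) : K := q ^ (i - 1)

/-- `⌊n / 2⌋` -/
def m (n : ℕ) : ℤ := (n : ℤ) / 2

/-- `⌊(n - 1) / 2⌋` -/
def m' (n : ℕ) : ℤ := ((n : ℤ) - 1) / 2

/-- `e(n) = m (16 m ^ 2 - 1) / 3 - (-1) ^ n 4 m ^ 2` (the division by three is exact) -/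
def e (n : ℕ) : ℤ := (m n * (16 * m n ^ 2 - 1)) / 3 - (-1) ^ n * (4 * m n ^ 2)

/-- `P_n`, the product of `(q; q)_{2 k - 1}` for `1 ≤ k ≤ n` -/
def P {K : Type*} [Field K] (q : K) (n : ℕ) : K := ∏ k ∈ Finset.Icc 1 n, qpoch q (2 * k - 1)

/-- `c_k = ⌊(n - 2 k) ^ 2 / 2⌋` -/
def c (n k : ℕ) : ℤ := ((n : ℤ) - 2 * k) ^ 2 / 2

/-- The first identity; the matrix index `i` of the problem is `i + 1` for `i : Fin (2 * n)`. -/
def First {K : Type*} [Field K] (a q : K) (n : ℕ) : Prop :=
  Pf (n := n) (fun i j => (x q (i.1 + 1) - x q (j.1 + 1)) *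
      g a q (((i.1 + 1 : ℕ) : ℤ) + ((j.1 + 1 : ℕ) : ℤ) - 3)) =
    a ^ (n * (n - 1)) * q ^ (e n - 2 * m n * m' n) * P q n

/-- The second identity. -/
def Second {K : Type*} [Field K] (a q : K) (n : ℕ) : Prop :=
  Pf (n := n) (fun i j => (x q (i.1 + 1) - x q (j.1 + 1)) *
      g a q (((i.1 + 1 : ℕ) : ℤ) + ((j.1 + 1 : ℕ) : ℤ) - 2)) =
    a ^ (n * (n - 1)) * q ^ (e n) * P q n *
      ∑ k ∈ Finset.range (n + 1), q ^ (c n k) * gbin (q ^ 2) n k * a ^ k

/-- The field of rational functions in two indeterminates. -/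
abbrev RatFun : Type := FractionRing (MvPolynomial (Fin 2) ℤ)

open Pool.Agent.Q162.Pfaff

section proof

variable {K : Type*} [Field K]

theorem qpoch_eq (q : K) (m : ℕ) : qpoch q m = qp q m := by
  induction m with
  | zero => simp [qpoch, qp]
  | succ m ih => rw [qp_succ, ← ih, qpoch, qpoch, Finset.prod_Icc_succ_top (by omega)]

theorem gbin_eq {q : K} (hq : ∀ i, 1 ≤ i → q ^ i ≠ 1) (m k : ℕ) (h : k ≤ m) :
    gbin q m k = gb q m k := by
  rw [gbin, qpoch_eq, qpoch_eq, qpoch_eq]
  exact gauss_eq hq m k h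

theorem g_eq {q : K} (hq : ∀ i, 1 ≤ i → q ^ i ≠ 1) (a : K) (r : ℕ) : g a q (r : ℤ) = rs a q r := by
  rw [g, if_neg (by omega), Int.toNat_natCast, rs]
  apply Finset.sum_congr rfl
  intro j hj
  rw [Finset.mem_range] at hj
  rw [gbin_eq hq r j (by omega)]

theorem exact_three (z : ℤ) : ∃ d, z * (16 * z ^ 2 - 1) = 3 * d := by
  have h : z % 3 = 0 ∨ z % 3 = 1 ∨ z % 3 = 2 := by omega
  rcases h with h | h | h
  · obtain ⟨w, hw⟩ : ∃ w, z = 3 * w := ⟨z / 3, by omega⟩
    subst hw
    exact ⟨w * (16 * (3 * w) ^ 2 - 1), by ring⟩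
  · obtain ⟨w, hw⟩ : ∃ w, z = 3 * w + 1 := ⟨z / 3, by omega⟩
    subst hw
    exact ⟨144 * w ^ 3 + 144 * w ^ 2 + 47 * w + 5, by ring⟩
  · obtain ⟨w, hw⟩ : ∃ w, z = 3 * w + 2 := ⟨z / 3, by omega⟩
    subst hw
    exact ⟨144 * w ^ 3 + 288 * w ^ 2 + 191 * w + 42, by ring⟩

theorem sg0 (t : ℕ) : (-1 : ℤ) ^ (2 * t) = 1 := by rw [pow_mul]; norm_num

theorem sg1 (t : ℕ) : (-1 : ℤ) ^ (2 * t + 1) = -1 := by rw [pow_succ, sg0]; norm_num

theorem sg2 (t : ℕ) : (-1 : ℤ) ^ (2 * t + 1 + 1) = 1 := by rw [pow_succ, sg1]; norm_num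

theorem e_step (n : ℕ) : e (n + 1) - 2 * m (n + 1) * m' (n + 1) =
    (e n - 2 * m n * m' n) + n * (2 * n - 1) := by
  rcases Nat.even_or_odd' n with ⟨t, h | h⟩
  · subst h
    have h1 : m (2 * t) = t := by unfold m; omega
    have h2 : m (2 * t + 1) = t := by unfold m; omega
    have h3 : m' (2 * t) = t - 1 := by unfold m'; omega
    have h4 : m' (2 * t + 1) = t := by unfold m'; omega
    unfold e
    rw [h1, h2, h3, h4, sg0, sg1]
    push_cast
    ring
  · subst h
    have h1 : m (2 * t + 1) = t := by unfold m; omega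
    have h2 : m (2 * t + 1 + 1) = t + 1 := by unfold m; omega
    have h3 : m' (2 * t + 1) = t := by unfold m'; omega
    have h4 : m' (2 * t + 1 + 1) = t := by unfold m'; omega
    unfold e
    rw [h1, h2, h3, h4, sg1, sg2]
    obtain ⟨d, hd⟩ := exact_three (t : ℤ)
    obtain ⟨d', hd'⟩ := exact_three ((t : ℤ) + 1)
    rw [hd, hd', Int.mul_ediv_cancel_left _ (by norm_num), Int.mul_ediv_cancel_left _ (by norm_num)]
    have : 3 * d' - 3 * d = 48 * (t : ℤ) ^ 2 + 48 * t + 15 := by
      rw [← hd, ← hd']; ring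
    have h5 : d' - d = 16 * (t : ℤ) ^ 2 + 16 * t + 5 := by linarith
    push_cast
    linear_combination h5

theorem c_eq (n k : ℕ) : c n k + 2 * m n * m' n = (n : ℤ) * (n - 1) - 2 * k * (n - k) := by
  rcases Nat.even_or_odd' n with ⟨t, h | h⟩
  · subst h
    have h1 : m (2 * t) = t := by unfold m; omega
    have h3 : m' (2 * t) = t - 1 := by unfold m'; omega
    have h2 : c (2 * t) k = 2 * ((t : ℤ) - k) ^ 2 := by
      unfold c
      have : (((2 * t : ℕ) : ℤ) - 2 * k) ^ 2 = 2 * (2 * ((t : ℤ) - k) ^ 2) := by push_cast; ring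
      rw [this, Int.mul_ediv_cancel_left _ (by norm_num)]
    rw [h1, h2, h3]
    push_cast
    ring
  · subst h
    have h1 : m (2 * t + 1) = t := by unfold m; omega
    have h3 : m' (2 * t + 1) = t := by unfold m'; omega
    have h2 : c (2 * t + 1) k = 2 * ((t : ℤ) - k) ^ 2 + 2 * ((t : ℤ) - k) := by
      unfold c
      have : (((2 * t + 1 : ℕ) : ℤ) - 2 * k) ^ 2 =
          2 * (2 * ((t : ℤ) - k) ^ 2 + 2 * ((t : ℤ) - k)) + 1 := by push_cast; ring
      rw [this]
      omega
    rw [h1, h2, h3]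
    push_cast
    ring

theorem nm_even (a q : K) (k : ℕ) :
    nm a q (2 * k) = a ^ (2 * k) * q ^ (k * (2 * k - 1)) * qp q (2 * k) := by
  induction k with
  | zero => simp [nm, qp]
  | succ k ih =>
    rw [show 2 * (k + 1) = 2 * k + 1 + 1 by ring, nm, nm, ih, qp_succ, qp_succ,
      show (k + 1) * (2 * k + 1 + 1 - 1) = k * (2 * k - 1) + (2 * k) + (2 * k + 1) by
        cases k with
        | zero => rfl
        | succ k =>
          rw [show 2 * (k + 1) - 1 = 2 * k + 1 by omega,
            show 2 * (k + 1) + 1 + 1 - 1 = 2 * k + 3 by omega]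
          ring]
    ring

theorem prod_bb {q : K} (h0 : q ≠ 0) (a : K) (n : ℕ) :
    ∏ k ∈ range n, bb a q (2 * k) = a ^ (n * (n - 1)) * q ^ (e n - 2 * m n * m' n) * P q n := by
  induction n with
  | zero => simp [e, m, m', P]
  | succ n ih =>
    rw [prod_range_succ, ih, bb, nm_even, P, P, Finset.prod_Icc_succ_top (by omega), e_step,
      zpow_add₀ h0, qpoch_eq, show 2 * (n + 1) - 1 = 2 * n + 1 by omega, qp_succ]
    have h1 : q ^ ((n : ℤ) * (2 * n - 1)) = q ^ (n * (2 * n - 1)) := by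
      rw [← zpow_natCast]
      congr 1
      cases n with
      | zero => simp
      | succ n => push_cast [show 2 * (n + 1) - 1 = 2 * n + 1 by omega]; ring
    have h2 : a ^ ((n + 1) * (n + 1 - 1)) = a ^ (n * (n - 1)) * a ^ (2 * n) := by
      rw [← pow_add]
      congr 1
      cases n with
      | zero => rfl
      | succ n => simp only [Nat.add_sub_cancel]; ring
    rw [h1, h2]
    ring

/-- front recursion -/
def RR (a q : K) : ℕ → ℕ → K
  | _, 0 => 1
  | s, 1 => (1 + a) * q ^ s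
  | s, n + 2 => (1 + a) * q ^ s * RR a q (s + 2) (n + 1) +
      a * q ^ s * (1 - q ^ (s + 2)) * RR a q (s + 4) n

theorem RR_zero (a q : K) (s : ℕ) : RR a q s 0 = 1 := by rw [RR]

theorem RR_one (a q : K) (s : ℕ) : RR a q s 1 = (1 + a) * q ^ s := by rw [RR]

theorem RR_two (a q : K) (s n : ℕ) : RR a q s (n + 2) = (1 + a) * q ^ s * RR a q (s + 2) (n + 1) +
      a * q ^ s * (1 - q ^ (s + 2)) * RR a q (s + 4) n := by rw [RR]

theorem RR_back (a q : K) (n : ℕ) : ∀ s, RR a q s (n + 2) =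
    (1 + a) * q ^ (s + 2 * n + 2) * RR a q s (n + 1) +
      a * q ^ (s + 2 * n) * (1 - q ^ (s + 2 * n + 2)) * RR a q s n := by
  induction n using Nat.twoStepInduction with
  | zero =>
    intro s
    rw [RR_two, zero_add, RR_one, RR_one, RR_zero, RR_zero]
    ring
  | one =>
    intro s
    rw [RR_two, RR_two a q (s + 2) 0, RR_two a q s 0]
    simp only [zero_add, RR_one, RR_zero]
    ring
  | more n ih1 ih2 =>
    intro s
    rw [RR_two a q s (n + 2), show n + 2 + 1 = (n + 1) + 2 by rfl, ih2 (s + 2), ih1 (s + 4),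
      RR_two a q s (n + 1), show n + 1 + 1 = n + 2 by rfl, RR_two a q s n]
    ring

theorem bb_succ (a q : K) (s : ℕ) : bb a q (s + 1) = - (a * q ^ s) * (1 - q ^ (s + 2)) * bb a q s := by
  rw [bb, bb, nm]
  ring

theorem pfn_second {q : K} (hq : ∀ i, 1 ≤ i → q ^ i ≠ 1) (a : K) (n : ℕ) : ∀ s,
    pfn n (fun i j => form1 a q (U a q (i + s)) (U a q (j + s))) =
      (∏ k ∈ range n, bb a q (s + 2 * k)) * RR a q s n := by
  induction n using Nat.twoStepInduction with
  | zero => intro s; simp [pfn, RR_zero]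
  | one =>
    intro s
    rw [pfn_one, form1_U hq a _ _ (by omega), if_pos (by omega), RR_one]
    simp
    ring
  | more n ih1 ih2 =>
    intro s
    rw [pfn_band]
    · have h1 := ih2 (s + 2)
      have h2 := ih1 (s + 4)
      have e1 : (fun i j => form1 a q (U a q (i + 2 + s)) (U a q (j + 2 + s))) =
          fun i j => form1 a q (U a q (i + (s + 2))) (U a q (j + (s + 2))) := by
        funext i j
        rw [show i + 2 + s = i + (s + 2) by ring, show j + 2 + s = j + (s + 2) by ring]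
      have e2 : (fun i j => form1 a q (U a q (i + 4 + s)) (U a q (j + 4 + s))) =
          fun i j => form1 a q (U a q (i + (s + 4))) (U a q (j + (s + 4))) := by
        funext i j
        rw [show i + 4 + s = i + (s + 4) by ring, show j + 4 + s = j + (s + 4) by ring]
      rw [e1, e2, h1, h2, form1_U hq a _ _ (by omega), if_pos (by omega),
        form1_U hq a _ _ (by omega), if_neg (by omega), if_pos (by omega),
        form1_U hq a _ _ (by omega), if_neg (by omega), if_pos (by omega)]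
      have p1 : ∏ k ∈ range (n + 1), bb a q (s + 2 + 2 * k) =
          bb a q (s + 2) * ∏ k ∈ range n, bb a q (s + 4 + 2 * k) := by
        rw [prod_range_succ', mul_comm]
        congr 1
        apply prod_congr rfl
        intro k _
        congr 1
        ring
      have p2 : ∏ k ∈ range (n + 2), bb a q (s + 2 * k) =
          bb a q s * (bb a q (s + 2) * ∏ k ∈ range n, bb a q (s + 4 + 2 * k)) := by
        rw [prod_range_succ', mul_comm, ← p1]
        congr 1
        apply prod_congr rfl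
        intro k _
        congr 1
        ring
      rw [p1, p2, RR_two]
      simp only [zero_add]
      rw [show 1 + s + 1 = s + 2 by ring, bb_succ a q s]
      ring
    · intro i j hij
      rw [form1_U hq a _ _ (by omega), if_neg (by omega), if_neg (by omega)]

theorem pfn_first {q : K} (hq : ∀ i, 1 ≤ i → q ^ i ≠ 1) (a : K) (n : ℕ) : ∀ s,
    pfn n (fun i j => form0 a q (U a q (i + s)) (U a q (j + s))) =
      ∏ k ∈ range n, bb a q (s + 2 * k) := by
  induction n using Nat.twoStepInduction with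
  | zero => intro s; simp [pfn]
  | one =>
    intro s
    rw [pfn_one, form0_U hq a _ _ (by omega), if_pos (by omega)]
    simp
  | more n ih1 ih2 =>
    intro s
    rw [pfn_band]
    · have h1 := ih2 (s + 2)
      have e1 : (fun i j => form0 a q (U a q (i + 2 + s)) (U a q (j + 2 + s))) =
          fun i j => form0 a q (U a q (i + (s + 2))) (U a q (j + (s + 2))) := by
        funext i j
        rw [show i + 2 + s = i + (s + 2) by ring, show j + 2 + s = j + (s + 2) by ring]
      rw [e1, h1, form0_U hq a _ _ (by omega), if_pos (by omega),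
        form0_U hq a _ _ (by omega), if_neg (by omega)]
      have p2 : ∏ k ∈ range (n + 2), bb a q (s + 2 * k) =
          bb a q s * ∏ k ∈ range (n + 1), bb a q (s + 2 + 2 * k) := by
        rw [prod_range_succ', mul_comm]
        congr 1
        apply prod_congr rfl
        intro k _
        congr 1
        ring
      rw [p2]
      simp only [zero_add]
      ring
    · intro i j hij
      rw [form0_U hq a _ _ (by omega), if_neg (by omega)]

theorem RR_eq_ts {q : K} (h0 : q ≠ 0) (hq : ∀ i, 1 ≤ i → q ^ i ≠ 1) (a : K) (n : ℕ) :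
    RR a q 0 n = ts a q n := by
  induction n using Nat.twoStepInduction with
  | zero => simp [RR_zero, ts, tt, gb]
  | one => simp [RR_one, ts, tt, gb, sum_range_succ]
  | more n ih1 ih2 =>
    rw [RR_back, ts_rec h0 hq, ih1, ih2]
    simp only [zero_add]
    ring

theorem Pf_eq [CharZero K] {n : ℕ} (A : Matrix (Fin (2 * n)) (Fin (2 * n)) K) (v : K)
    (h : pfSum A = ((2 ^ n * n.factorial : ℕ) : K) * v) : Pf A = v := by
  have h1 : Pf A = 1 / ((2 : K) ^ n * (n.factorial : K)) * pfSum A := rfl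
  rw [h1, h]
  have h2 : (n.factorial : K) ≠ 0 := by exact_mod_cast n.factorial_ne_zero
  have h3 : (2 : K) ^ n ≠ 0 := pow_ne_zero _ two_ne_zero
  push_cast
  field_simp

theorem first_gen [CharZero K] {q : K} (h0 : q ≠ 0) (hq : ∀ i, 1 ≤ i → q ^ i ≠ 1) (a : K)
    (n : ℕ) : First a q n := by
  unfold First
  apply Pf_eq
  have h1 : (fun i j : Fin (2 * n) => (x q (i.1 + 1) - x q (j.1 + 1)) *
      g a q (((i.1 + 1 : ℕ) : ℤ) + ((j.1 + 1 : ℕ) : ℤ) - 3)) =
      fun i j : Fin (2 * n) => form0 a q (X ^ (i : ℕ)) (X ^ (j : ℕ)) := by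
    funext i j
    by_cases h : 1 ≤ i.1 + j.1
    · rw [form0_X a q _ _ h, x, x, Nat.add_sub_cancel, Nat.add_sub_cancel,
        show ((i.1 + 1 : ℕ) : ℤ) + ((j.1 + 1 : ℕ) : ℤ) - 3 = ((i.1 + j.1 - 1 : ℕ) : ℤ) by
          push_cast [Nat.cast_sub h]; ring, g_eq hq]
    · have hi : i.1 = 0 := by omega
      have hj : j.1 = 0 := by omega
      rw [hi, hj, form0_apply]
      simp
  rw [h1, ← gram_transfer (form0 a q) (U a q) (U_coeff_lt a q) (U_coeff_self a q) n,
    pfSum_eq n (fun i j => form0 a q (U a q i) (U a q j)) (fun i j => form0_skew a q _ _)]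
  congr 1
  have h2 := pfn_first hq a n 0
  simp only [add_zero, zero_add] at h2
  rw [h2, prod_bb h0]

theorem second_gen [CharZero K] {q : K} (h0 : q ≠ 0) (hq : ∀ i, 1 ≤ i → q ^ i ≠ 1) (a : K)
    (n : ℕ) : Second a q n := by
  have hq2 : ∀ i, 1 ≤ i → (q ^ 2) ^ i ≠ 1 := by
    intro i hi
    rw [← pow_mul]
    exact hq _ (by omega)
  unfold Second
  apply Pf_eq
  have h1 : (fun i j : Fin (2 * n) => (x q (i.1 + 1) - x q (j.1 + 1)) *
      g a q (((i.1 + 1 : ℕ) : ℤ) + ((j.1 + 1 : ℕ) : ℤ) - 2)) =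
      fun i j : Fin (2 * n) => form1 a q (X ^ (i : ℕ)) (X ^ (j : ℕ)) := by
    funext i j
    rw [form1_X a q _ _, x, x, Nat.add_sub_cancel, Nat.add_sub_cancel,
      show ((i.1 + 1 : ℕ) : ℤ) + ((j.1 + 1 : ℕ) : ℤ) - 2 = ((i.1 + j.1 : ℕ) : ℤ) by
        push_cast; ring, g_eq hq]
  rw [h1, ← gram_transfer (form1 a q) (U a q) (U_coeff_lt a q) (U_coeff_self a q) n,
    pfSum_eq n (fun i j => form1 a q (U a q i) (U a q j)) (fun i j => form1_skew a q _ _)]
  congr 1
  have h2 := pfn_second hq a n 0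
  simp only [add_zero, zero_add] at h2
  have h3 : q ^ (e n - 2 * m n * m' n) * ts a q n = q ^ (e n) *
      ∑ k ∈ Finset.range (n + 1), q ^ (c n k) * gbin (q ^ 2) n k * a ^ k := by
    rw [ts, Finset.mul_sum, Finset.mul_sum]
    apply Finset.sum_congr rfl
    intro k hk
    rw [Finset.mem_range] at hk
    rw [gbin_eq hq2 n k (by omega), tt, ← c_eq, zpow_add₀ h0, zpow_sub₀ h0]
    have h4 : q ^ (2 * m n * m' n) ≠ 0 := zpow_ne_zero _ h0
    field_simp
  rw [h2, prod_bb h0, RR_eq_ts h0 hq]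
  linear_combination (a ^ (n * (n - 1)) * P q n) * h3

end proof

/-- Both identities, for the two indeterminates and for general fields. -/
theorem result :
    (∀ n : ℕ, 1 ≤ n →
      First (algebraMap (MvPolynomial (Fin 2) ℤ) RatFun (MvPolynomial.X 0))
        (algebraMap (MvPolynomial (Fin 2) ℤ) RatFun (MvPolynomial.X 1)) n ∧
      Second (algebraMap (MvPolynomial (Fin 2) ℤ) RatFun (MvPolynomial.X 0))
        (algebraMap (MvPolynomial (Fin 2) ℤ) RatFun (MvPolynomial.X 1)) n) ∧
    (∀ (F : Type) [Field F] [CharZero F] (a q : F), q ≠ 0 → (∀ i : ℕ, 1 ≤ i → q ^ i ≠ 1) →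
      ∀ n : ℕ, 1 ≤ n → First a q n ∧ Second a q n) := by
  refine ⟨?_, ?_⟩
  · intro n _
    have : CharZero RatFun := charZero_of_injective_algebraMap
      (IsFractionRing.injective (MvPolynomial (Fin 2) ℤ) RatFun)
    have h0 : algebraMap (MvPolynomial (Fin 2) ℤ) RatFun (MvPolynomial.X 1) ≠ 0 := by
      rw [Ne, IsFractionRing.to_map_eq_zero_iff]
      exact MvPolynomial.X_ne_zero 1
    have hq : ∀ i : ℕ, 1 ≤ i →
        (algebraMap (MvPolynomial (Fin 2) ℤ) RatFun (MvPolynomial.X 1)) ^ i ≠ 1 := by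
      intro i hi h
      rw [← map_pow, ← map_one (algebraMap (MvPolynomial (Fin 2) ℤ) RatFun)] at h
      have h1 := IsFractionRing.injective (MvPolynomial (Fin 2) ℤ) RatFun h
      have h2 := congrArg (MvPolynomial.eval (fun _ => (0 : ℤ))) h1
      rw [map_pow, MvPolynomial.eval_X, map_one, zero_pow (by omega)] at h2
      exact zero_ne_one h2
    exact ⟨first_gen h0 hq _ n, second_gen h0 hq _ n⟩
  · intro F _ _ a q h0 hq n _
    exact ⟨first_gen h0 hq a n, second_gen h0 hq a n⟩

end Pool.Agent.Results.MP_f5e7e2_co.AlSalamCarlitz
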